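import Pool.Agent.Helper69.EK3.Mir
import Pool.Agent.Helper44.EK.StripAux
set_option autoImplicit false
open Complex MeasureTheory Metric Set
open scoped Real ComplexConjugate

/-!
# Project CK: the area on which the cut-off is not 1
-/

namespace Pool.Agent.Helper63.CK

open Pool.Agent.Helper52.EK Pool.Agent.Helper69.EK3

theorem inner {f : ℝ → ℝ} (hf : ContinuousOn f (Icc 0 π))
    (h1 : ∀ η ∈ Icc (0:ℝ) π, f η ≤ 1) {q : ℝ} (hq : 0 ≤ q)
    (hz : ∀ η ∈ Icc (0:ℝ) π, q ≤ Real.sin η → f η = 0) :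
    ∫ η in (0:ℝ)..π, f η ≤ π * min 1 q := by
  have hπ := Real.pi_pos
  have hi : ∀ a b : ℝ, 0 ≤ a → a ≤ b → b ≤ π → IntervalIntegrable f volume a b := by
    intro a b ha hab hb
    apply ContinuousOn.intervalIntegrable
    rw [uIcc_of_le hab]
    exact hf.mono (Icc_subset_Icc ha hb)
  have hm : ∀ a b : ℝ, 0 ≤ a → a ≤ b → b ≤ π → ∫ η in a..b, f η ≤ b - a := by
    intro a b ha hab hb
    calc ∫ η in a..b, f η ≤ ∫ _ in a..b, (1:ℝ) := by
          apply intervalIntegral.integral_mono_on hab (hi a b ha hab hb)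
            (by simp)
          intro η hη
          exact h1 η ⟨ha.trans hη.1, hη.2.trans hb⟩
      _ = b - a := by simp
  rcases le_total 1 q with h | h
  · rw [min_eq_left h]
    have := hm 0 π le_rfl hπ.le le_rfl
    linarith
  · rw [min_eq_right h]
    set u : ℝ := π * q / 2 with hu
    have hu0 : 0 ≤ u := by positivity
    have hu1 : u ≤ π / 2 := by
      rw [hu]
      nlinarith
    have e1 : ∫ η in (0:ℝ)..π, f η = (∫ η in (0:ℝ)..u, f η) + (∫ η in u..(π - u), f η) +
        ∫ η in (π - u)..π, f η := by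
      rw [intervalIntegral.integral_add_adjacent_intervals (hi 0 u le_rfl hu0 (by linarith))
        (hi u (π - u) hu0 (by linarith) (by linarith)),
        intervalIntegral.integral_add_adjacent_intervals (hi 0 (π - u) le_rfl (by linarith)
          (by linarith)) (hi (π - u) π (by linarith) (by linarith) le_rfl)]
    have e2 : ∫ η in u..(π - u), f η = 0 := by
      apply intervalIntegral.integral_zero_ae
      refine Filter.Eventually.of_forall fun η hη => ?_
      rw [uIoc_of_le (by linarith)] at hη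
      have hη0 : 0 ≤ η := hu0.trans hη.1.le
      have hηπ : η ≤ π := hη.2.trans (by linarith)
      apply hz η ⟨hη0, hηπ⟩
      have h3 : 2 / π * u = q := by
        rw [hu]
        field_simp
      rcases le_total η (π / 2) with h4 | h4
      · have h5 := Real.mul_le_sin hη0 h4
        have h6 : 2 / π * u ≤ 2 / π * η := mul_le_mul_of_nonneg_left hη.1.le (by positivity)
        linarith
      · have h5 := Real.mul_le_sin (x := π - η) (by linarith) (by linarith)
        rw [Real.sin_pi_sub] at h5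
        have h6 : 2 / π * u ≤ 2 / π * (π - η) :=
          mul_le_mul_of_nonneg_left (by linarith [hη.2]) (by positivity)
        linarith
    have e3 := hm 0 u le_rfl hu0 (by linarith)
    have e4 := hm (π - u) π (by linarith) (by linarith) le_rfl
    rw [e1, e2]
    have : u + u = π * q := by rw [hu]; ring
    linarith

theorem min_le_log (t : ℝ) : min 1 (Real.exp (-t)) ≤ 2 * Real.exp (-t) / (1 + Real.exp (-t)) := by
  have h := Real.exp_pos (-t)
  rw [le_div_iff₀ (by positivity)]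
  rcases le_total 1 (Real.exp (-t)) with h1 | h1
  · rw [min_eq_left h1]
    linarith
  · rw [min_eq_right h1]
    nlinarith

theorem outer_int (lb a b : ℝ) :
    ∫ ξ in a..b, 2 * Real.exp (-(ξ - lb)) / (1 + Real.exp (-(ξ - lb))) =
      2 * Real.log (1 + Real.exp (-(a - lb))) - 2 * Real.log (1 + Real.exp (-(b - lb))) := by
  have hd : ∀ x ∈ uIcc a b, HasDerivAt (fun ξ => -(2 * Real.log (1 + Real.exp (-(ξ - lb)))))
      (2 * Real.exp (-(x - lb)) / (1 + Real.exp (-(x - lb)))) x := by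
    intro x _
    have h0 : HasDerivAt (fun ξ : ℝ => -(ξ - lb)) (-1) x :=
      ((hasDerivAt_id x).sub_const lb).neg
    have h1 := h0.exp.const_add 1
    have hp : (1 + Real.exp (-(x - lb))) ≠ 0 := by positivity
    have h2 := ((h1.log hp).const_mul 2).neg
    refine h2.congr_deriv ?_
    ring
  have hc : Continuous (fun x : ℝ => 2 * Real.exp (-(x - lb)) / (1 + Real.exp (-(x - lb)))) := by
    apply Continuous.div (by fun_prop) (by fun_prop)
    intro x
    positivity
  rw [intervalIntegral.integral_eq_sub_of_hasDerivAt hd (hc.intervalIntegrable _ _)]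
  ring

theorem log_one_add_exp_le (t : ℝ) : Real.log (1 + Real.exp t) ≤ max t 0 + 1 := by
  have h1 : 1 + Real.exp t ≤ 2 * Real.exp (max t 0) := by
    have h2 : Real.exp t ≤ Real.exp (max t 0) := Real.exp_le_exp.mpr (le_max_left _ _)
    have h3 : 1 ≤ Real.exp (max t 0) := Real.one_le_exp (le_max_right _ _)
    linarith
  have h4 : Real.log (1 + Real.exp t) ≤ Real.log (2 * Real.exp (max t 0)) :=
    Real.log_le_log (by positivity) h1
  rw [Real.log_mul (by norm_num) (Real.exp_pos _).ne', Real.log_exp] at h4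
  have h5 : Real.log 2 ≤ 1 := by
    have := Real.log_le_sub_one_of_pos (x := 2) (by norm_num)
    linarith
  linarith

/-- the area bound: `W = 1` where `ξ ≤ -A` and `e^lb ≤ e^ξ sin η` -/
theorem area_le {x₁ x₂ A lb : ℝ} (hx : x₁ ≤ x₂) (hA : -A ≤ x₂) {W : ℝ → ℝ → ℝ}
    (hW : CH x₁ x₂ π W) (h0 : ∀ ξ ∈ Icc x₁ x₂, ∀ η ∈ Icc (0:ℝ) π, 0 ≤ W ξ η)
    (h1 : ∀ ξ ∈ Icc x₁ x₂, ∀ η ∈ Icc (0:ℝ) π, ξ ≤ -A →
      Real.exp lb ≤ Real.exp ξ * Real.sin η → W ξ η = 1) :
    II x₁ x₂ (fun ξ η => 1 - W ξ η) ≤ π * (2 * (max (lb - x₁) 0 + 1) + (x₂ + A)) := by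
  have hπ := Real.pi_pos
  have hf : CH x₁ x₂ π (fun ξ η => 1 - W ξ η) := (CH_const 1).sub hW
  have hfξ : ∀ ξ ∈ Icc x₁ x₂, ContinuousOn (fun η => 1 - W ξ η) (Icc 0 π) := fun ξ hξ =>
    ContinuousOn.comp (f := fun η : ℝ => (ξ, η)) (g := fun p : ℝ × ℝ => 1 - W p.1 p.2) hf
      (by fun_prop) (fun η hη => ⟨hξ, hη⟩)
  set F : ℝ → ℝ := fun ξ => ∫ η in (0:ℝ)..π, (1 - W ξ η) with hF
  have hFi : IntegrableOn F (Icc x₁ x₂) := by
    have h2 := hf.integrableOn
    have h3 : IntegrableOn (fun p : ℝ × ℝ => 1 - W p.1 p.2) (Icc x₁ x₂ ×ˢ Icc 0 π)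
        (volume.prod volume) := h2
    rw [IntegrableOn, ← Measure.prod_restrict] at h3
    have h4 := h3.integral_prod_left
    have h5 : (fun ξ => ∫ η in Icc (0:ℝ) π, (1 - W ξ η)) = F := by
      funext ξ
      rw [hF]
      simp only
      rw [intervalIntegral.integral_of_le hπ.le, ← integral_Icc_eq_integral_Ioc]
    rw [← h5]
    exact h4
  have hFI : ∀ a b : ℝ, x₁ ≤ a → a ≤ b → b ≤ x₂ → IntervalIntegrable F volume a b := by
    intro a b ha hab hb
    rw [intervalIntegrable_iff_integrableOn_Icc_of_le hab]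
    exact hFi.mono_set (Icc_subset_Icc ha hb)
  have b1 : ∀ ξ ∈ Icc x₁ x₂, F ξ ≤ π := by
    intro ξ hξ
    have h2 := inner (q := 2) (hfξ ξ hξ) (fun η hη => by linarith [h0 ξ hξ η hη]) (by norm_num)
      (fun η hη hs => absurd (Real.sin_le_one η) (by linarith))
    have h3 : min (1:ℝ) 2 = 1 := by norm_num
    rw [h3, mul_one] at h2
    exact h2
  have b2 : ∀ ξ ∈ Icc x₁ x₂, ξ ≤ -A →
      F ξ ≤ π * (2 * Real.exp (-(ξ - lb)) / (1 + Real.exp (-(ξ - lb)))) := by
    intro ξ hξ hξA
    have h2 := inner (q := Real.exp (-(ξ - lb))) (hfξ ξ hξ)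
      (fun η hη => by linarith [h0 ξ hξ η hη]) (Real.exp_pos _).le
      (fun η hη hs => by
        have h3 : Real.exp lb ≤ Real.exp ξ * Real.sin η := by
          have h4 : Real.exp lb = Real.exp ξ * Real.exp (-(ξ - lb)) := by
            rw [← Real.exp_add]
            congr 1
            ring
          rw [h4]
          exact mul_le_mul_of_nonneg_left hs (Real.exp_pos _).le
        rw [h1 ξ hξ η hη hξA h3]
        ring)
    exact h2.trans (mul_le_mul_of_nonneg_left (min_le_log _) hπ.le)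
  have hc : Continuous (fun x : ℝ => 2 * Real.exp (-(x - lb)) / (1 + Real.exp (-(x - lb)))) := by
    apply Continuous.div (by fun_prop) (by fun_prop)
    intro x
    positivity
  have hII : II x₁ x₂ (fun ξ η => 1 - W ξ η) = ∫ ξ in x₁..x₂, F ξ := rfl
  rw [hII]
  have hlog : Real.log (1 + Real.exp (-(x₁ - lb))) ≤ max (lb - x₁) 0 + 1 := by
    have h2 := log_one_add_exp_le (-(x₁ - lb))
    have h3 : -(x₁ - lb) = lb - x₁ := by ring
    rwa [h3] at h2 ⊢
  have hlog0 : 0 ≤ max (lb - x₁) 0 := le_max_right _ _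
  rcases le_total x₁ (-A) with hxA | hxA
  · have e1 : ∫ ξ in x₁..x₂, F ξ = (∫ ξ in x₁..(-A), F ξ) + ∫ ξ in (-A)..x₂, F ξ :=
      (intervalIntegral.integral_add_adjacent_intervals (hFI x₁ (-A) le_rfl hxA hA)
        (hFI (-A) x₂ hxA hA le_rfl)).symm
    have e2 : ∫ ξ in (-A)..x₂, F ξ ≤ π * (x₂ + A) := by
      calc ∫ ξ in (-A)..x₂, F ξ ≤ ∫ _ in (-A)..x₂, π := by
            apply intervalIntegral.integral_mono_on hA (hFI (-A) x₂ hxA hA le_rfl) (by simp)
            intro ξ hξ
            exact b1 ξ ⟨hxA.trans hξ.1, hξ.2⟩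
        _ = π * (x₂ + A) := by
            rw [intervalIntegral.integral_const, smul_eq_mul]
            ring
    have e3 : ∫ ξ in x₁..(-A), F ξ ≤ π * (2 * (max (lb - x₁) 0 + 1)) := by
      calc ∫ ξ in x₁..(-A), F ξ ≤
            ∫ ξ in x₁..(-A), π * (2 * Real.exp (-(ξ - lb)) / (1 + Real.exp (-(ξ - lb)))) := by
            apply intervalIntegral.integral_mono_on hxA (hFI x₁ (-A) le_rfl hxA hA)
              ((continuous_const.mul hc).intervalIntegrable _ _)
            intro ξ hξ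
            exact b2 ξ ⟨hξ.1, hξ.2.trans hA⟩ hξ.2
        _ ≤ π * (2 * (max (lb - x₁) 0 + 1)) := by
            rw [intervalIntegral.integral_const_mul, outer_int]
            apply mul_le_mul_of_nonneg_left _ hπ.le
            have h4 : 0 ≤ Real.log (1 + Real.exp (-(-A - lb))) := by
              apply Real.log_nonneg
              have := Real.exp_pos (-(-A - lb))
              linarith
            linarith
    rw [e1]
    have : π * (2 * (max (lb - x₁) 0 + 1) + (x₂ + A)) =
      π * (2 * (max (lb - x₁) 0 + 1)) + π * (x₂ + A) := by ring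
    linarith
  · calc ∫ ξ in x₁..x₂, F ξ ≤ ∫ _ in x₁..x₂, π := by
          apply intervalIntegral.integral_mono_on hx (hFI x₁ x₂ le_rfl hx le_rfl) (by simp)
          intro ξ hξ
          exact b1 ξ hξ
      _ = π * (x₂ - x₁) := by
          rw [intervalIntegral.integral_const, smul_eq_mul]
          ring
      _ ≤ π * (2 * (max (lb - x₁) 0 + 1) + (x₂ + A)) := by
          apply mul_le_mul_of_nonneg_left _ hπ.le
          linarith

theorem tau_ge {x : ℝ} (h0 : 0 < x) (h1 : x ≤ 1) : x / 4 ≤ tau (Real.exp (-x)) := by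
  have h2 : Real.exp (-x) ≤ 1 - x / 2 := by
    have h3 := Real.add_one_le_exp x
    have h4 : 0 < Real.exp x := Real.exp_pos x
    rw [Real.exp_neg, inv_le_comm₀ h4 (by linarith)]
    rw [inv_le_iff_one_le_mul₀ (by linarith)]
    nlinarith
  have h3 : 0 < Real.exp (-x) := Real.exp_pos _
  unfold tau
  rw [le_div_iff₀ (by linarith)]
  nlinarith

theorem tau_le {x : ℝ} (h0 : 0 < x) (h1 : x ≤ Real.exp (-2)) :
    tau (Real.exp (-x)) ≤ Real.exp (-2) := by
  have h3 : 0 < Real.exp (-x) := Real.exp_pos _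
  have h4 := Real.add_one_le_exp (-x)
  unfold tau
  rw [div_le_iff₀ (by linarith)]
  nlinarith [Real.exp_pos (-2)]

/-- the area bound in the form used by the cut-off -/
theorem area (B : ℝ) : ∃ C : ℝ, 0 ≤ C ∧ ∀ (n w x : ℝ) (W : ℝ → ℝ → ℝ), 2 ≤ n → 1 ≤ w → w ≤ n →
    0 < x → x ≤ Real.exp (-n) →
    Pool.Agent.Helper44.EK.CO (Real.log (tau (Real.exp (-x))) + 1) (-1) W →
    (∀ ξ ∈ Icc (Real.log (tau (Real.exp (-x))) + 1) (-1), ∀ η ∈ Icc (0:ℝ) π,
      0 ≤ W ξ η ∧ W ξ η ≤ 1) →
    (∀ ξ ∈ Icc (Real.log (tau (Real.exp (-x))) + 1) (-1), ∀ η ∈ Icc (0:ℝ) π, ξ ≤ -B →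
      4 * Real.exp (-(n - w)) ≤ Real.exp ξ * Real.sin η → W ξ η = 1) →
    II (Real.log (tau (Real.exp (-x))) + 1) (-1) (fun ξ η => 1 - W ξ η) ≤
      100 * w + C * (1 + (-Real.log x) - n) := by
  have hπ := Real.pi_pos
  have hπ4 := Real.pi_le_four
  refine ⟨π * (8 + |B|), by positivity, ?_⟩
  intro n w x W hn hw hwn hx hxn hW h01 h1
  have hx2 : x ≤ Real.exp (-2) := hxn.trans (Real.exp_le_exp.mpr (by linarith))
  have hx1 : x ≤ 1 := hx2.trans (by
    rw [← Real.exp_zero]
    exact Real.exp_le_exp.mpr (by norm_num))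
  have ht4 : x / 4 ≤ tau (Real.exp (-x)) := tau_ge hx hx1
  have ht0 : 0 < tau (Real.exp (-x)) := lt_of_lt_of_le (by positivity) ht4
  have ht2 : Real.log (tau (Real.exp (-x))) ≤ -2 := by
    rw [← Real.log_exp (-2)]
    exact Real.log_le_log ht0 (tau_le hx hx2)
  have htl : Real.log x - Real.log 4 ≤ Real.log (tau (Real.exp (-x))) := by
    rw [← Real.log_div hx.ne' (by norm_num)]
    exact Real.log_le_log (by positivity) ht4
  have hlx : Real.log x ≤ -n := by
    rw [← Real.log_exp (-n)]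
    exact Real.log_le_log hx hxn
  have hl4 : Real.log 4 ≤ 3 / 2 := by
    have h2 : Real.log 4 = 2 * Real.log 2 := by
      rw [show (4:ℝ) = 2 ^ 2 by norm_num, Real.log_pow]
      norm_num
    have h3 := Real.log_two_lt_d9
    linarith
  set x₁ : ℝ := Real.log (tau (Real.exp (-x))) + 1 with hx₁
  have hle := area_le (x₁ := x₁) (x₂ := -1) (A := 1 + |B|) (lb := Real.log 4 + (-(n - w)))
    (by linarith) (by linarith [abs_nonneg B]) (W := W) hW
    (fun ξ hξ η hη => (h01 ξ hξ η hη).1)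
    (fun ξ hξ η hη hξA hs => by
      apply h1 ξ hξ η hη (by linarith [le_abs_self B])
      rwa [Real.exp_add, Real.exp_log (by norm_num)] at hs)
  refine hle.trans ?_
  have hm : max (Real.log 4 + (-(n - w)) - x₁) 0 ≤ 2 + w + (-Real.log x - n) := by
    apply max_le <;> linarith
  have hL : 0 ≤ -Real.log x - n := by linarith
  have h2 : π * (2 * (max (Real.log 4 + (-(n - w)) - x₁) 0 + 1) + (-1 + (1 + |B|))) ≤
      π * (2 * (2 + w + (-Real.log x - n) + 1) + |B|) := by
    apply mul_le_mul_of_nonneg_left _ hπ.le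
    linarith
  refine h2.trans ?_
  have h3 : π * (2 * w) ≤ 100 * w := by nlinarith
  have h4 : 0 ≤ |B| := abs_nonneg B
  have h5 : π * (8 + |B|) * (1 + (-Real.log x) - n) =
      π * (8 + |B|) + π * (8 + |B|) * (-Real.log x - n) := by ring
  have h6 : π * 2 * (-Real.log x - n) ≤ π * (8 + |B|) * (-Real.log x - n) := by
    apply mul_le_mul_of_nonneg_right _ hL
    apply mul_le_mul_of_nonneg_left _ hπ.le
    linarith
  have h7 : π * (2 * (2 + w + (-Real.log x - n) + 1) + |B|) =
      π * (2 * w) + π * 2 * (-Real.log x - n) + π * (6 + |B|) := by ring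
  rw [h5, h7]
  have h8 : π * (6 + |B|) ≤ π * (8 + |B|) := by
    apply mul_le_mul_of_nonneg_left _ hπ.le
    linarith
  linarith

end Pool.Agent.Helper63.CK
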